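import Mathlib
import Pool.Agent.R291.RMW.Y4

set_option autoImplicit false

/-!
# Integers of the form `f(p₁) + p₂` in random models of the primes

Let `f(x) = x² + bx + c` with integers `b`, `c`.  For EVERY sequential random model of the primes
(the integers are decided one after the other, only integers coprime to a fixed `Q` can be chosen,
and the conditional probability of choosing `n + 1` (coprime to `Q`) given the past is asymptotic to
`(Q / φ(Q)) / log n`; no independence is assumed; for `Q = 1` Cramér's model and the Hawkins random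
sieve are examples) we prove that almost surely all large `N` which are not excluded modulo `Q` are
of the form `f(p₁) + p₂` with members `p₁`, `p₂` of the random set, and we determine the size of the
least possible `p₁` with the exact constant, in every residue class modulo `Q`.
-/

open MeasureTheory Filter
open scoped Topology

namespace Pool.Agent.Results.MP_d9bc60_nt.LeastArgumentRandomModels

/-- the polynomial `f(x) = x² + bx + c` -/
def f (b c : ℤ) (p : ℕ) : ℤ := (p : ℤ) ^ 2 + b * p + c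

/-- the number of the residues `a` mod `Q` such that `a` and `N - f(a)` are coprime to `Q`, multiplied
by `Q / φ(Q)²` -/
noncomputable def sigma (Q : ℕ) (b c : ℤ) (N : ℕ) : ℝ :=
  Q * ((Finset.range Q).filter (fun a => Nat.Coprime a Q ∧ Int.gcd ((N : ℤ) - f b c a) Q = 1)).card /
    (Nat.totient Q : ℝ) ^ 2

end Pool.Agent.Results.MP_d9bc60_nt.LeastArgumentRandomModels

open Pool.Agent.Results.MP_d9bc60_nt.LeastArgumentRandomModels Pool.Agent.R528.RM Pool.Agent.R291.RMW

/-- Let `A n` be the event that `n` belongs to a random set `S` adapted to a filtration `ℱ`, let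
`Q ≥ 1`, let no integer which is not coprime to `Q` be chosen, and let the conditional probability of
`A (n + 1)` given `ℱ n`, times `log n`, tend to `Q / φ(Q)` along the `n` with `n + 1` coprime to `Q`,
almost surely.  Let `b`, `c` be integers and `f(x) = x² + bx + c`.
(1) Almost surely, for every `ε > 0` and all large `N` with `σ(N) > 0` there are `p₁`, `p₂` in `S` with
`N = f(p₁) + p₂` and `|b| + |c| < p₁ ≤ (1 + ε) (2 / σ(N)) (log N)² log log N`.
(2) Almost surely, for every `r` with `σ(r) > 0`, every `ε > 0` and all large `x` there is `N ≤ x`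
with `x ≤ 8 Q N`, congruent to `r` mod `Q`, such that `N ≠ f(p₁) + p₂` for all `p₁`, `p₂` in `S` with
`|b| + |c| < p₁ ≤ (1 - ε) (2 / σ(r)) (log x)² log log x`. -/
theorem Pool.Agent.Results.MP_d9bc60_nt.LeastArgumentRandomModels.result
    {Ω : Type} [mΩ : MeasurableSpace Ω] (μ : Measure Ω) [IsProbabilityMeasure μ]
    (ℱ : Filtration ℕ mΩ) (A : ℕ → Set Ω) (hA : ∀ n, MeasurableSet[ℱ n] (A n))
    (Q : ℕ) (hQ : 0 < Q) (hcop : ∀ n, ¬ Nat.Coprime n Q → A n = ∅)
    (hd : ∀ᵐ ω ∂μ, Tendsto (fun n : ℕ =>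
      (μ[(A (n + 1)).indicator (fun _ => (1 : ℝ)) | ℱ n]) ω * Real.log n)
      (atTop ⊓ 𝓟 {n : ℕ | Nat.Coprime (n + 1) Q}) (𝓝 ((Q : ℝ) / Nat.totient Q)))
    (b c : ℤ) :
    (∀ᵐ ω ∂μ, ∀ ε : ℝ, 0 < ε → ∀ᶠ N : ℕ in atTop, 0 < sigma Q b c N → ∃ p₁ p₂ : ℕ,
      ω ∈ A p₁ ∧ ω ∈ A p₂ ∧ (N : ℤ) = f b c p₁ + p₂ ∧ b.natAbs + c.natAbs < p₁ ∧
      (p₁ : ℝ) ≤ (1 + ε) * (2 / sigma Q b c N) * (Real.log N ^ 2 * Real.log (Real.log N))) ∧
    (∀ᵐ ω ∂μ, ∀ r : ℕ, 0 < sigma Q b c r → ∀ ε : ℝ, 0 < ε → ∀ᶠ x : ℕ in atTop, ∃ N : ℕ, N ≤ x ∧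
      x ≤ 8 * Q * N ∧ N % Q = r % Q ∧ ∀ p₁ p₂ : ℕ, ω ∈ A p₁ → ω ∈ A p₂ → b.natAbs + c.natAbs < p₁ →
        (p₁ : ℝ) ≤ (1 - ε) * (2 / sigma Q b c r) * (Real.log x ^ 2 * Real.log (Real.log x)) →
        (N : ℤ) ≠ f b c p₁ + p₂) := by
  have hprof := Pool.Agent.R528.RM.dens_profile (μ := μ) (ℱ := ℱ) hA Q hQ hcop hd
  have hR := qf_rep hQ b c
  constructor
  · filter_upwards [rep_upper_all (μ := μ) (ℱ := ℱ) hA hQ hcop hprof hR] with ω hω ε hε
    filter_upwards [hω ε hε] with N hN hs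
    obtain ⟨p, p1, p2, p3, p4, p5⟩ := hN hs
    have h1 := qf_pos p1
    have p2' : (qf b c p).toNat < N := p2
    refine ⟨p, N - (qf b c p).toNat, p4, p5, ?_, by omega, p3⟩
    have h2 : f b c p = qf b c p := rfl
    rw [h2]
    omega
  · filter_upwards [rep_lower_all (μ := μ) (ℱ := ℱ) hA hQ hcop hprof hR] with ω hω r hr ε hε
    filter_upwards [hω r hr ε hε] with x ⟨N, N1, N2, N3, N4⟩
    refine ⟨N, N1, N3, N2, fun p₁ p₂ h1 h2 h3 h4 h5 => ?_⟩
    obtain ⟨h6, h7⟩ := N4 p₁ (by omega) h4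
    have h8 := qf_pos (b := b) (c := c) (p := p₁) (by omega)
    have h9 : f b c p₁ = qf b c p₁ := rfl
    rw [h9] at h5
    have h6' : (qf b c p₁).toNat < N := h6
    have h10 : p₂ = N - (qf b c p₁).toNat := by omega
    rw [h10] at h2
    exact h7 h1 h2
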