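import Pool.Agent.R498.MP.UPoly

set_option autoImplicit false

/-!
# Strings of consecutive primes `p` with almost prime `n - f(p)`, for every large odd `n`
-/

namespace Pool.Agent.Results.MP_d9bc60_nt.PrimeStrings

open Filter

/-- `n ≠ 0` is up to the sign a product of at most `r` primes, counted with multiplicity, all of them at
least `w`. -/
def AlmostPrime (r : ℕ) (w : ℝ) (n : ℤ) : Prop :=
  n ≠ 0 ∧ n.natAbs.primeFactorsList.length ≤ r ∧ ∀ q : ℕ, q.Prime → (q : ℤ) ∣ n → w ≤ q

/-- The primes in the interval `[x, x + C]` are exactly the numbers `x + s`, `s ∈ H`. -/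
def PrimePattern (C : ℕ) (H : Finset ℕ) (x : ℕ) : Prop := ∀ y ≤ C, (x + y).Prime ↔ y ∈ H

/-- **Every large odd `n` is `f(p)` plus an almost prime, for strings of consecutive primes `p`.** Let
`f(x) = x ^ 2 + b x + c` with `b` and `c` of opposite parity and `3 ∤ b`, and let `q` be squarefree. For every
`m` there are `K`, `B` and `δ > 0` such that for every `A` there is an `r` such that, for every finite set `S` of
at least `K` nonnegative integers, the following holds for all large odd `n`, all `N ≥ n ^ (1 / A)` and all `e`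
for which `e (n - f(e))` is coprime to `q` (for instance `q = 1`). There are a subset `H` of `S` with at least
`m` elements and at least `N / (log N) ^ B` numbers `x` with `N < x ≤ x + max S ≤ 2 N` such that the primes in
`[x, x + max S]` are exactly the numbers `x + s`, `s ∈ H`, all these primes `p` are `≡ e` modulo `q`, and
`n - f(p) ≠ 0` (which is positive if `f(y) < n` for `0 ≤ y ≤ 2 N`) has at most `r` prime factors, all of them
at least `N ^ δ`. -/
theorem result (b c : ℤ) (hbc : Odd (b + c)) (hb : ¬ (3 : ℤ) ∣ b) (q : ℕ) (hq : Squarefree q)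
    (m : ℕ) : ∃ (K B : ℕ) (δ : ℝ), 0 < δ ∧ ∀ A : ℕ, ∃ r : ℕ, ∀ S : Finset ℕ, K ≤ S.card →
      ∀ᶠ n : ℕ in atTop, Odd n → ∀ N : ℕ, n ≤ N ^ A →
      ∀ e : ℕ, IsCoprime ((e : ℤ) * (n - ((e : ℤ) ^ 2 + b * e + c))) (q : ℤ) →
      ∃ H ⊆ S, m ≤ H.card ∧ ∃ T : Finset ℕ, (N : ℝ) ≤ Real.log N ^ B * T.card ∧
        ∀ x ∈ T, N < x ∧ x + S.sup id ≤ 2 * N ∧ PrimePattern (S.sup id) H x ∧
          ∀ s ∈ H, x + s ≡ e [MOD q] ∧ AlmostPrime r ((N : ℝ) ^ δ)
            (n - (((x + s : ℕ) : ℤ) ^ 2 + b * ((x + s : ℕ) : ℤ) + c)) := by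
  obtain ⟨G, hG⟩ : ∃ G : Polynomial ℤ, G = Polynomial.X ^ 2 + Polynomial.C b * Polynomial.X +
    Polynomial.C c := ⟨_, rfl⟩
  have hGe : ∀ x : ℤ, G.eval x = x ^ 2 + b * x + c := fun x => by rw [hG]; simp
  obtain ⟨K, B, δ, hδ, hmain⟩ := Pool.Agent.R498.MP.hn_runs (fun i : Fin 0 => i.elim0) G q hq m
  refine ⟨K, B, δ, hδ, fun A => ?_⟩
  obtain ⟨r, hr⟩ := hmain A
  refine ⟨r, fun S hS => ?_⟩
  filter_upwards [hr S hS] with n hn
  intro hodd N hN e he
  obtain ⟨H, hH, hHm, T, hT, hmem⟩ := hn N hN (fun p hp => by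
      simp only [Finset.univ_eq_empty, Finset.prod_empty, mul_one]
      simp_rw [hGe]
      have hpZ : Prime (p : ℤ) := Nat.prime_iff_prime_int.1 hp
      have h1 : ¬ (p : ℤ) ∣ 1 := fun h => hp.one_lt.ne' (Nat.dvd_one.1 (by exact_mod_cast h))
      by_contra hcon
      push Not at hcon
      by_cases hp2 : p = 2
      · subst hp2
        have h2 := hcon 1
        obtain ⟨k, hk⟩ := hodd
        obtain ⟨j, hj⟩ := hbc
        rw [hk] at h2
        push_cast at h2
        have h3 : (2 : ℤ) ∣ 1 * (2 * k + 1 - (1 ^ 2 + b * 1 + c)) := h2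
        have h4 : (1 : ℤ) * (2 * k + 1 - (1 ^ 2 + b * 1 + c)) = 2 * (k - j) - 1 := by linarith
        rw [h4] at h3
        omega
      have h2' : ¬ (p : ℤ) ∣ 2 := by
        intro h
        have : p ∣ 2 := by exact_mod_cast h
        exact hp2 ((Nat.prime_dvd_prime_iff_eq hp Nat.prime_two).1 this)
      have g1 : (p : ℤ) ∣ n - (1 + b + c) := by
        have := hcon 1
        norm_num at this
        exact this
      have g2 : (p : ℤ) ∣ n - (1 - b + c) := by
        have := hcon (-1)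
        have e1 : (-1 : ℤ) * ((n : ℤ) - ((-1) ^ 2 + b * (-1) + c)) = -(n - (1 - b + c)) := by ring
        rw [e1] at this
        exact (dvd_neg).1 this
      have g3 : (p : ℤ) ∣ b := by
        have h3 := dvd_sub g2 g1
        have e1 : (n : ℤ) - (1 - b + c) - (n - (1 + b + c)) = 2 * b := by ring
        rw [e1] at h3
        exact (hpZ.dvd_or_dvd h3).resolve_left h2'
      by_cases hp3 : p = 3
      · subst hp3
        exact hb (by exact_mod_cast g3)
      have g4 : (p : ℤ) ∣ n - (4 + 2 * b + c) := by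
        have := hcon 2
        have e1 : (2 : ℤ) * ((n : ℤ) - (2 ^ 2 + b * 2 + c)) = 2 * (n - (4 + 2 * b + c)) := by ring
        rw [e1] at this
        exact (hpZ.dvd_or_dvd this).resolve_left h2'
      have g5 : (p : ℤ) ∣ 3 := by
        have h3 := dvd_sub g1 g4
        have e1 : (n : ℤ) - (1 + b + c) - (n - (4 + 2 * b + c)) = 3 + b := by ring
        rw [e1] at h3
        exact (dvd_add_left g3).1 h3
      have g6 : p ∣ 3 := by exact_mod_cast g5
      exact hp3 ((Nat.prime_dvd_prime_iff_eq hp Nat.prime_three).1 g6)) e (by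
      simp only [Finset.univ_eq_empty, Finset.prod_empty, mul_one]
      rw [hGe]
      exact he)
  refine ⟨H, hH, hHm, T, hT, fun x hx => ?_⟩
  obtain ⟨g1, g2, g3, g4⟩ := hmem x hx
  refine ⟨g1, g2, fun y hy => ⟨fun hp => ?_, fun hyH => (g3 y hyH).1⟩, fun s hs => ?_⟩
  · by_contra hcon
    exact g4 y hy hcon (fun _ _ _ i => i.elim0) hp
  · obtain ⟨-, k2, -, k3⟩ := g3 s hs
    rw [hGe] at k3
    exact ⟨k2, k3⟩

end Pool.Agent.Results.MP_d9bc60_nt.PrimeStrings
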